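import Pool.Agent.Helper73.LR.Assemble
import Pool.Agent.Helper73.HV.Final
import Pool.Agent.Helper16.Buoy.Final
import Pool.Agent.Helper65.LR.Lev
import Pool.Agent.Helper65.LR.Rh
import Pool.Agent.Helper92.LR.Sh
import Pool.Agent.Helper92.LR.Mu2
import Pool.Agent.Helper96.LR.Aff
import Pool.Agent.Helper96.LR.Nrm
import Pool.Agent.Helper96.LR.Nnr
import Pool.Agent.Helper96.LR.Ell
import Pool.Agent.Helper82.LR.Shl
import Pool.Agent.Helper82.LR.Rad
import Pool.Agent.Helper82.LR.Bds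
import Pool.Agent.Helper9.LR.Bal
import Pool.Agent.Helper13.LR.Hex
import Pool.Agent.Helper20.LR.Gen
import Pool.Agent.Helper20.LR.Mul
import Pool.Agent.Helper12.LR.Pol
import Pool.Agent.Helper6.LR.Den
import Pool.Agent.Helper6.LR.Bla
import Pool.Agent.Helper47.LR.Inj
import Pool.Agent.Helper47.LR.Lim
import Pool.Agent.Helper23.LR.Cpt

/-!
# Body of buoyancy: densities near one half, and local rigidity at every density
-/

open MeasureTheory Set Metric Real
open scoped RealInnerProductSpace ENNReal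
open Pool.Agent.Helper16.Buoy (E cap IsEllipsoid Homothetic buoyancyBody)
open Pool.Agent.Helper73.HV (supp SBody)

namespace Pool.Agent.Helper73.LR

theorem loc_sol_of_hom : S_sol_of_hom :=
  Pool.Agent.Helper92.LR.sol_of_hom Pool.Agent.Helper65.LR.level

theorem loc_mult_lt : S_mult_lt :=
  Pool.Agent.Helper20.LR.mult_lt

theorem loc_inj : S_inj :=
  Pool.Agent.Helper47.LR.inj (Pool.Agent.Helper12.LR.Pol.poly Pool.Agent.Helper20.LR.rot)
    loc_mult_lt (Pool.Agent.Helper92.LR.mult_two Pool.Agent.Helper82.LR.shell)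
    Pool.Agent.Helper6.LR.s_dense

theorem loc_hexp : S_hexp :=
  Pool.Agent.Helper13.LR.hexp Pool.Agent.Helper65.LR.level Pool.Agent.Helper82.LR.shell
    Pool.Agent.Helper82.LR.rad_all Pool.Agent.Helper9.LR.ball_level
    Pool.Agent.Helper9.LR.ball_cont

theorem loc_local : S_local :=
  local_of loc_hexp Pool.Agent.Helper82.LR.rad_all Pool.Agent.Helper82.LR.rad_near
    Pool.Agent.Helper82.LR.shell (Pool.Agent.Helper47.LR.limit loc_inj)
    Pool.Agent.Helper9.LR.ball_level

theorem loc_compact : S_compact :=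
  Pool.Agent.Helper23.LR.compact Pool.Agent.Helper6.LR.s_blaschke
    Pool.Agent.Helper82.LR.nrm_bounds Pool.Agent.Helper96.LR.ell_nrm
    Pool.Agent.Helper65.LR.level

theorem loc_half {n : ℕ} (hn : 3 ≤ n) (K : Set (E n)) (hK : CB K)
    (hs : Sol K (1 / 2 * vol K)) : IsEllipsoid K :=
  half_only Pool.Agent.Helper65.LR.red_half (by omega : 2 ≤ n)
    Pool.Agent.Helper73.HV.iso_ball' Pool.Agent.Helper35.HV.exists_iso
    Pool.Agent.Helper35.HV.eqn_image (fun hr h => Pool.Agent.Helper73.HV.ell_of_ball hr h) K hK hs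

/-- (T1) Densities near one half. -/
theorem near_half (n : ℕ) :
    ∃ η : ℝ, 0 < η ∧ ∀ (K : Set (E n)) (d : ℝ), Convex ℝ K → IsCompact K →
      (interior K).Nonempty → |d - (volume K).toReal / 2| ≤ η * (volume K).toReal →
      Homothetic K (buoyancyBody K d) → IsEllipsoid K :=
  near_half_of loc_sol_of_hom loc_local Pool.Agent.Helper96.LR.sol_aff
    Pool.Agent.Helper96.LR.normalize Pool.Agent.Helper96.LR.ell_aff loc_compact loc_half
    (fun hn _ h1 h2 h3 => Pool.Agent.Helper73.HV.small_dim hn h1 h2 h3)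
    (fun h1 h2 h3 _ h4 h5 h6 => Pool.Agent.Helper16.Buoy.planar h1 h2 h3 h4 h5 h6) n

/-- (T2) Local rigidity at every density. -/
theorem local_rigidity (n : ℕ) (a : ℝ) (ha : 0 < a) :
    ∃ ε : ℝ, 0 < ε ∧ ∀ (K : Set (E n)) (d : ℝ) (T : E n ≃ᵃ[ℝ] E n), Convex ℝ K → IsCompact K →
      (interior K).Nonempty → T '' closedBall 0 1 ⊆ K → K ⊆ T '' closedBall 0 (1 + ε) →
      a * (volume K).toReal ≤ d → d ≤ (1 - a) * (volume K).toReal →
      Homothetic K (buoyancyBody K d) → IsEllipsoid K :=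
  local_rigidity_of loc_sol_of_hom loc_local Pool.Agent.Helper96.LR.sol_aff
    Pool.Agent.Helper96.LR.normalize Pool.Agent.Helper96.LR.ell_aff
    Pool.Agent.Helper96.LR.near_nrm
    (fun hn _ h1 h2 h3 => Pool.Agent.Helper73.HV.small_dim hn h1 h2 h3)
    (fun h1 h2 h3 _ h4 h5 h6 => Pool.Agent.Helper16.Buoy.planar h1 h2 h3 h4 h5 h6) n a ha

end Pool.Agent.Helper73.LR
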