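import Pool.Agent.Helper73.LR.Loc
import Pool.Agent.Helper73.HV.Stmts

/-!
# Assembly of the final theorems from the modules (project MP_a2630c_LR)
-/

open MeasureTheory Set Metric Real
open scoped RealInnerProductSpace ENNReal
open Pool.Agent.Helper16.Buoy (E cap IsEllipsoid Homothetic buoyancyBody)
open Pool.Agent.Helper73.HV (supp SBody)

namespace Pool.Agent.Helper73.LR

theorem ofReal_vol {n : ℕ} {K : Set (E n)} (hK : CB K) : ENNReal.ofReal (vol K) = volume K :=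
  ENNReal.ofReal_toReal hK.comp.measure_lt_top.ne

theorem ell_BB (n : ℕ) : IsEllipsoid (BB n) := ⟨AffineEquiv.refl ℝ (E n), by simp⟩

/-- Homothety at a density between zero and one gives the equation. -/
theorem sol_of_density (hSH : S_sol_of_hom) {n : ℕ} (hn : 1 ≤ n) {K : Set (E n)} (hK : CB K)
    {d : ℝ} (hd0 : 0 < d) (hd1 : d < vol K) (hhom : Homothetic K (buoyancyBody K d)) :
    Sol K (d / vol K * vol K) := by
  have hv := vol_pos hK
  rw [div_mul_cancel₀ _ hv.ne']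
  refine hSH hn hK hd0 ?_ hhom
  rw [← ofReal_vol hK]
  exact (ENNReal.ofReal_lt_ofReal_iff hv).2 hd1

/-- If the equation at density `1/2` only has ellipsoidal solutions. -/
theorem half_only (hRH : S_red_half) {n : ℕ} (hn : 2 ≤ n)
    (hiso : Pool.Agent.Helper73.HV.S_iso_ball) (hex : Pool.Agent.Helper73.HV.S_exists_iso)
    (heqn : Pool.Agent.Helper73.HV.S_eqn_image)
    (hell : ∀ {n : ℕ} {K : Set (E n)} {p : E n} {T : E n ≃L[ℝ] E n} {r : ℝ}, 0 < r →
      T '' ((fun x => x - p) '' K) = closedBall 0 r → IsEllipsoid K)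
    (K : Set (E n)) (hK : CB K) (hs : Sol K (1 / 2 * vol K)) : IsEllipsoid K := by
  obtain ⟨m, rfl⟩ : ∃ m, n = m + 2 := ⟨n - 2, by omega⟩
  obtain ⟨p, c, hc, hS, heq⟩ := hRH (by omega) hK hs
  obtain ⟨T, σ, hσ, hi⟩ := hex hS
  obtain ⟨hS', c', hc', heq'⟩ := heqn hS T hc heq
  obtain ⟨r, hr, hball⟩ := hiso hS' hc' hσ heq' hi
  exact hell hr hball

/-- Normalised solutions near the ball at densities near `θ0` are ellipsoids. -/
theorem ell_of_near (hLoc : S_local) (hAff : S_sol_aff) (hNrm : S_normalize)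
    (hEll : S_ell_aff) {n : ℕ} (hn : 3 ≤ n) {θ0 : ℝ} (h0 : 0 < θ0) (h1 : θ0 < 1) :
    ∃ ε0 : ℝ, 0 < ε0 ∧ ∀ (K : Set (E n)) (θ : ℝ), CB K → |θ - θ0| ≤ ε0 →
      Sol K (θ * vol K) →
      (∀ (T : E n ≃L[ℝ] E n) (p : E n), Nrm (aff T p '' K) → Near (aff T p '' K) ε0) →
      IsEllipsoid K := by
  obtain ⟨ε0, hε0, h⟩ := hLoc hn h0 h1
  refine ⟨ε0, hε0, fun K θ hK hθ hs hnear => ?_⟩
  obtain ⟨T, p, hN⟩ := hNrm hK
  obtain ⟨hK', hs'⟩ := hAff hK hs T p
  have h2 := h (aff T p '' K) θ hK' hN (hnear T p hN) hθ hs'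
  refine hEll T p ?_
  rw [h2]
  exact ell_BB n

/-- (T1), dimension at least three. -/
theorem near_half_three (hSH : S_sol_of_hom) (hLoc : S_local) (hAff : S_sol_aff)
    (hNrm : S_normalize) (hEll : S_ell_aff) (hCpt : S_compact) {n : ℕ} (hn : 3 ≤ n)
    {θ0 : ℝ} (h0 : 0 < θ0) (h1 : θ0 < 1)
    (hhalf : ∀ K : Set (E n), CB K → Sol K (θ0 * vol K) → IsEllipsoid K) :
    ∃ η : ℝ, 0 < η ∧ ∀ (K : Set (E n)) (d : ℝ), CB K → |d - θ0 * vol K| ≤ η * vol K →
      Homothetic K (buoyancyBody K d) → IsEllipsoid K := by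
  obtain ⟨ε0, hε0, h⟩ := ell_of_near hLoc hAff hNrm hEll hn h0 h1
  obtain ⟨η, hη, hc⟩ := hCpt (by omega : 1 ≤ n) h0 h1 hhalf hε0
  refine ⟨min (min (η / 2) ε0) (min (θ0 / 2) ((1 - θ0) / 2)), ?_, ?_⟩
  · refine lt_min (lt_min (by positivity) hε0) (lt_min (by positivity) ?_)
    have : 0 < 1 - θ0 := by linarith
    positivity
  intro K d hK hd hhom
  set η' := min (min (η / 2) ε0) (min (θ0 / 2) ((1 - θ0) / 2)) with hη'
  have e1 : η' ≤ η / 2 := (min_le_left _ _).trans (min_le_left _ _)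
  have e2 : η' ≤ ε0 := (min_le_left _ _).trans (min_le_right _ _)
  have e3 : η' ≤ θ0 / 2 := (min_le_right _ _).trans (min_le_left _ _)
  have e4 : η' ≤ (1 - θ0) / 2 := (min_le_right _ _).trans (min_le_right _ _)
  clear_value η'
  have hv := vol_pos hK
  have hd' := abs_le.1 hd
  have hd0 : 0 < d := by nlinarith [hd'.1]
  have hd1 : d < vol K := by nlinarith [hd'.2]
  have hs := sol_of_density hSH (by omega) hK hd0 hd1 hhom
  have hθ : |d / vol K - θ0| ≤ η' := by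
    have h2 : d / vol K - θ0 = (d - θ0 * vol K) / vol K := by field_simp
    rw [h2, abs_div, abs_of_pos hv, div_le_iff₀ hv]
    exact hd
  refine h K (d / vol K) hK (hθ.trans e2) hs (fun T p hN => ?_)
  obtain ⟨hK', hs'⟩ := hAff hK hs T p
  exact hc _ _ hK' hN (by linarith) hs'

/-- (T1) -/
theorem near_half_of (hSH : S_sol_of_hom) (hLoc : S_local) (hAff : S_sol_aff)
    (hNrm : S_normalize) (hEll : S_ell_aff) (hCpt : S_compact)
    (hhalf : ∀ {n : ℕ}, 3 ≤ n → ∀ K : Set (E n), CB K → Sol K (1 / 2 * vol K) → IsEllipsoid K)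
    (hsmall : ∀ {n : ℕ}, n ≤ 1 → ∀ {K : Set (E n)}, Convex ℝ K → IsCompact K →
      (interior K).Nonempty → IsEllipsoid K)
    (hplanar : ∀ {K : Set (E 2)}, Convex ℝ K → IsCompact K → (interior K).Nonempty →
      ∀ {d : ℝ}, 0 < d → ENNReal.ofReal d < volume K → Homothetic K (buoyancyBody K d) →
      IsEllipsoid K) (n : ℕ) :
    ∃ η : ℝ, 0 < η ∧ ∀ (K : Set (E n)) (d : ℝ), Convex ℝ K → IsCompact K →
      (interior K).Nonempty → |d - (volume K).toReal / 2| ≤ η * (volume K).toReal →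
      Homothetic K (buoyancyBody K d) → IsEllipsoid K := by
  rcases Nat.lt_or_ge n 3 with hn | hn
  · rcases Nat.lt_or_ge n 2 with hn2 | hn2
    · exact ⟨1, one_pos, fun K d h1 h2 h3 _ _ => hsmall (by omega) h1 h2 h3⟩
    · obtain rfl : n = 2 := by omega
      refine ⟨1 / 4, by norm_num, fun K d h1 h2 h3 hd hh => ?_⟩
      have hK : CB K := ⟨h1, h2, h3⟩
      have hv := vol_pos hK
      have hd' := abs_le.1 hd
      change -(1 / 4 * vol K) ≤ d - vol K / 2 ∧ d - vol K / 2 ≤ 1 / 4 * vol K at hd'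
      have hd0 : 0 < d := by linarith [hd'.1]
      refine hplanar h1 h2 h3 hd0 ?_ hh
      rw [← ofReal_vol hK]
      exact (ENNReal.ofReal_lt_ofReal_iff hv).2 (by linarith [hd'.2])
  · obtain ⟨η, hη, h⟩ := near_half_three hSH hLoc hAff hNrm hEll hCpt hn
      (θ0 := 1 / 2) (by norm_num) (by norm_num) (hhalf hn)
    refine ⟨η, hη, fun K d h1 h2 h3 hd hh => h K d ⟨h1, h2, h3⟩ ?_ hh⟩
    have : (1 / 2 : ℝ) * vol K = (volume K).toReal / 2 := by unfold vol; ring
    rw [this]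
    exact hd

theorem Near.mono {n : ℕ} {K : Set (E n)} {ε ε' : ℝ} (h : Near K ε) (hle : ε ≤ ε') : Near K ε' :=
  ⟨(closedBall_subset_closedBall (by linarith)).trans h.1,
    h.2.trans (closedBall_subset_closedBall (by linarith))⟩

/-- Local rigidity, uniformly for densities in a compact interval. -/
theorem local_unif (hLoc : S_local) (hAff : S_sol_aff) (hNrm : S_normalize)
    (hEll : S_ell_aff) {n : ℕ} (hn : 3 ≤ n) {a : ℝ} (ha : 0 < a) :
    ∃ ε0 : ℝ, 0 < ε0 ∧ ∀ (θ : ℝ), θ ∈ Icc a (1 - a) → ∀ K : Set (E n), CB K →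
      Sol K (θ * vol K) →
      (∀ (T : E n ≃L[ℝ] E n) (p : E n), Nrm (aff T p '' K) → Near (aff T p '' K) ε0) →
      IsEllipsoid K := by
  refine (isCompact_Icc (a := a) (b := 1 - a)).induction_on
    (p := fun s => ∃ ε0 : ℝ, 0 < ε0 ∧ ∀ (θ : ℝ), θ ∈ s → ∀ K : Set (E n), CB K →
      Sol K (θ * vol K) →
      (∀ (T : E n ≃L[ℝ] E n) (p : E n), Nrm (aff T p '' K) → Near (aff T p '' K) ε0) →
      IsEllipsoid K) ?_ ?_ ?_ ?_
  · exact ⟨1, one_pos, fun θ hθ => absurd hθ (notMem_empty _)⟩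
  · rintro s t hst ⟨ε, hε, h⟩
    exact ⟨ε, hε, fun θ hθ => h θ (hst hθ)⟩
  · rintro s t ⟨ε, hε, h⟩ ⟨ε', hε', h'⟩
    refine ⟨min ε ε', lt_min hε hε', ?_⟩
    rintro θ (hθ | hθ) K hK hs hN
    · exact h θ hθ K hK hs (fun T p hp => (hN T p hp).mono (min_le_left _ _))
    · exact h' θ hθ K hK hs (fun T p hp => (hN T p hp).mono (min_le_right _ _))
  · intro θ0 hθ0
    obtain ⟨ε0, hε0, h⟩ := ell_of_near hLoc hAff hNrm hEll hn (θ0 := θ0)
      (by linarith [hθ0.1]) (by linarith [hθ0.2])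
    refine ⟨closedBall θ0 ε0, mem_nhdsWithin_of_mem_nhds (closedBall_mem_nhds _ hε0), ε0, hε0, ?_⟩
    intro θ hθ K hK hs hN
    refine h K θ hK ?_ hs hN
    simpa [Real.dist_eq] using hθ

/-- (T2) -/
theorem local_rigidity_of (hSH : S_sol_of_hom) (hLoc : S_local) (hAff : S_sol_aff)
    (hNrm : S_normalize) (hEll : S_ell_aff) (hNN : S_near_nrm)
    (hsmall : ∀ {n : ℕ}, n ≤ 1 → ∀ {K : Set (E n)}, Convex ℝ K → IsCompact K →
      (interior K).Nonempty → IsEllipsoid K)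
    (hplanar : ∀ {K : Set (E 2)}, Convex ℝ K → IsCompact K → (interior K).Nonempty →
      ∀ {d : ℝ}, 0 < d → ENNReal.ofReal d < volume K → Homothetic K (buoyancyBody K d) →
      IsEllipsoid K) (n : ℕ) (a : ℝ) (ha : 0 < a) :
    ∃ ε : ℝ, 0 < ε ∧ ∀ (K : Set (E n)) (d : ℝ) (T : E n ≃ᵃ[ℝ] E n), Convex ℝ K → IsCompact K →
      (interior K).Nonempty → T '' closedBall 0 1 ⊆ K → K ⊆ T '' closedBall 0 (1 + ε) →
      a * (volume K).toReal ≤ d → d ≤ (1 - a) * (volume K).toReal →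
      Homothetic K (buoyancyBody K d) → IsEllipsoid K := by
  rcases Nat.lt_or_ge n 3 with hn | hn
  · rcases Nat.lt_or_ge n 2 with hn2 | hn2
    · exact ⟨1, one_pos, fun K d T h1 h2 h3 _ _ _ _ _ => hsmall (by omega) h1 h2 h3⟩
    · obtain rfl : n = 2 := by omega
      refine ⟨1, one_pos, fun K d T h1 h2 h3 _ _ hd hd' hh => ?_⟩
      have hK : CB K := ⟨h1, h2, h3⟩
      have hv := vol_pos hK
      change a * vol K ≤ d at hd
      change d ≤ (1 - a) * vol K at hd'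
      have hd0 : 0 < d := lt_of_lt_of_le (by positivity) hd
      refine hplanar h1 h2 h3 hd0 ?_ hh
      rw [← ofReal_vol hK]
      exact (ENNReal.ofReal_lt_ofReal_iff hv).2 (by nlinarith)
  · obtain ⟨ε0, hε0, h⟩ := local_unif hLoc hAff hNrm hEll hn ha
    obtain ⟨ε', hε', hnear⟩ := hNN n hε0
    refine ⟨ε', hε', fun K d T h1 h2 h3 hin hout hd hd' hh => ?_⟩
    have hK : CB K := ⟨h1, h2, h3⟩
    have hv := vol_pos hK
    change a * vol K ≤ d at hd
    change d ≤ (1 - a) * vol K at hd'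
    have hd0 : 0 < d := lt_of_lt_of_le (by positivity) hd
    have hs := sol_of_density hSH (by omega) hK hd0 (by nlinarith) hh
    set θ := d / vol K with hθ
    have hθm : θ ∈ Icc a (1 - a) := by
      rw [hθ]
      exact ⟨(le_div_iff₀ hv).2 hd, (div_le_iff₀ hv).2 hd'⟩
    -- pull back by `T`
    let L : E n ≃L[ℝ] E n := T.linear.symm.toContinuousLinearEquiv
    have hTx : ∀ x, T x = T.linear x + T 0 := by
      intro x
      have := T.toAffineMap.map_vadd (0 : E n) x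
      simpa using this
    have hLT : ∀ x, aff L (-(L (T 0))) (T x) = x := by
      intro x
      unfold aff
      rw [hTx x, map_add]
      have : L (T.linear x) = x := by
        change T.linear.symm (T.linear x) = x
        exact T.linear.symm_apply_apply x
      rw [this]
      abel
    obtain ⟨hK', hs'⟩ := hAff hK hs L (-(L (T 0)))
    have hin' : BB n ⊆ aff L (-(L (T 0))) '' K := by
      intro x hx
      exact ⟨T x, hin ⟨x, hx, rfl⟩, hLT x⟩
    have hout' : aff L (-(L (T 0))) '' K ⊆ closedBall 0 (1 + ε') := by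
      rintro _ ⟨y, hy, rfl⟩
      obtain ⟨x, hx, rfl⟩ := hout hy
      rw [hLT x]
      exact hx
    refine hEll L (-(L (T 0))) ?_
    exact h θ hθm _ hK' hs' (fun T2 p2 hN => hnear _ T2 p2 hK' hin' hout' hN)

end Pool.Agent.Helper73.LR
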