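import Pool.Agent.Helper73.HV.Defs

/-!
# Local rigidity and open sets of densities: definitions (project MP_a2630c_LR)
-/

open MeasureTheory Set Metric Real
open scoped RealInnerProductSpace ENNReal
open Pool.Agent.Helper16.Buoy (E cap IsEllipsoid Homothetic buoyancyBody)
open Pool.Agent.Helper73.HV (supp)

namespace Pool.Agent.Helper73.LR

/-- A convex body. -/
structure CB {n : ℕ} (K : Set (E n)) : Prop where
  conv : Convex ℝ K
  comp : IsCompact K
  int : (interior K).Nonempty

/-- Volume as a real number. -/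
noncomputable def vol {n : ℕ} (K : Set (E n)) : ℝ := (volume K).toReal

/-- The unit ball. -/
abbrev BB (n : ℕ) : Set (E n) := closedBall (0 : E n) 1

/-- The unit sphere. -/
abbrev SS (n : ℕ) : Set (E n) := sphere (0 : E n) 1

/-- Surface measure on the unit sphere. -/
noncomputable def sg (n : ℕ) : Measure (SS n) := (volume : Measure (E n)).toSphere

/-- Integral of `(<u,x> - τ)₊` over `K`. -/
noncomputable def GG {n : ℕ} (K : Set (E n)) (u : E n) (τ : ℝ) : ℝ :=
  ∫ x in K, max (inner ℝ u x - τ) 0

/-- `K` solves the homothety equation for the cap volume `d` (in terms of support functions: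
`GG K u τ + d τ` is the integral of `<u,x>` over the cap of volume `d`, that is `d` times the
support function of the body of buoyancy). -/
def Sol {n : ℕ} (K : Set (E n)) (d : ℝ) : Prop :=
  ∃ (c : ℝ) (b : E n), 0 < c ∧ ∀ u : E n, ‖u‖ = 1 → ∃ τ : ℝ,
    volume (cap K u τ) = ENNReal.ofReal d ∧
      GG K u τ + d * τ = d * (c * supp K u + inner ℝ b u)

/-- `K` lies between the balls of radii `1 - ε` and `1 + ε`. -/
def Near {n : ℕ} (K : Set (E n)) (ε : ℝ) : Prop :=
  closedBall (0 : E n) (1 - ε) ⊆ K ∧ K ⊆ closedBall 0 (1 + ε)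

/-- Radial function (for a convex body with the origin in its interior). -/
noncomputable def rad {n : ℕ} (K : Set (E n)) (v : E n) : ℝ := (gauge K v)⁻¹

/-- Normalised position: centroid at the origin, second moments of the unit ball. -/
structure Nrm {n : ℕ} (K : Set (E n)) : Prop where
  cent : ∀ u : E n, ∫ x in K, inner ℝ u x = (0 : ℝ)
  iner : ∀ u : E n, ∫ x in K, (inner ℝ u x) ^ 2 = ∫ x in BB n, (inner ℝ u x) ^ 2

/-- The kernel integral `∫ (<u,v> - t)₊ χ(v) dσ(v)`. -/
noncomputable def KI {n : ℕ} (t : ℝ) (χ : SS n → ℝ) (u : E n) : ℝ :=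
  ∫ v : SS n, max (inner ℝ u (v : E n) - t) 0 * χ v ∂(sg n)

/-- `t` is the level of the caps of relative volume `θ` of the unit ball, and `H` the integral of
`<u,x>` over such a cap. -/
def BLev (n : ℕ) (θ t H : ℝ) : Prop :=
  -1 < t ∧ t < 1 ∧ 0 < H ∧ ∀ u : E n, ‖u‖ = 1 →
    volume (cap (BB n) u t) = ENNReal.ofReal (θ * vol (BB n)) ∧
      GG (BB n) u t + θ * vol (BB n) * t = H

/-- The affine map `x ↦ T x + p`. -/
def aff {n : ℕ} (T : E n ≃L[ℝ] E n) (p : E n) (x : E n) : E n := T x + p

end Pool.Agent.Helper73.LR
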