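import Pool.Agent.Helper73.LR.Stmts

/-!
# Local rigidity in normalised position: assembly (project MP_a2630c_LR)
-/

open MeasureTheory Set Metric Real
open scoped RealInnerProductSpace ENNReal
open Pool.Agent.Helper16.Buoy (E cap IsEllipsoid Homothetic buoyancyBody)
open Pool.Agent.Helper73.HV (supp SBody)

namespace Pool.Agent.Helper73.LR

instance sg_finite (n : ℕ) : IsFiniteMeasure (sg n) := by
  unfold sg; infer_instance

theorem vol_pos {n : ℕ} {K : Set (E n)} (hK : CB K) : 0 < vol K := by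
  unfold vol
  refine ENNReal.toReal_pos ?_ hK.comp.measure_lt_top.ne
  exact (Measure.measure_pos_of_nonempty_interior volume hK.int).ne'

/-- total mass of the sphere -/
noncomputable def mS (n : ℕ) : ℝ := ((sg n) univ).toReal

theorem mS_nonneg (n : ℕ) : 0 ≤ mS n := ENNReal.toReal_nonneg

theorem cont_ker {n : ℕ} (t : ℝ) (u : E n) :
    Continuous (fun v : SS n => max (inner ℝ u (v : E n) - t) 0) := by
  fun_prop

theorem integrable_sg {n : ℕ} {f : SS n → ℝ} (hf : Continuous f) : Integrable f (sg n) := by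
  have : CompactSpace (SS n) := isCompact_iff_compactSpace.1 (isCompact_sphere _ _)
  exact hf.integrable_of_hasCompactSupport (HasCompactSupport.of_compactSpace f)

theorem abs_int_le {n : ℕ} {f : SS n → ℝ} {M : ℝ} (hM : ∀ v, |f v| ≤ M) :
    |∫ v, f v ∂(sg n)| ≤ mS n * M := by
  have h := norm_integral_le_of_norm_le_const (μ := sg n) (f := f) (C := M)
    (Filter.Eventually.of_forall (fun v => by simpa [Real.norm_eq_abs] using hM v))
  rw [Real.norm_eq_abs] at h
  unfold mS
  rw [mul_comm]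
  exact h

theorem norm_SS {n : ℕ} (v : SS n) : ‖(v : E n)‖ = 1 := by
  have := v.2
  rwa [mem_sphere_zero_iff_norm] at this

theorem KI_bound {n : ℕ} {t M : ℝ} {χ : SS n → ℝ} (ht : |t| ≤ 1) (hχ : ∀ v, |χ v| ≤ M)
    {u : E n} (hu : ‖u‖ = 1) : |KI t χ u| ≤ mS n * (2 * M) := by
  unfold KI
  refine abs_int_le (fun v => ?_)
  rw [abs_mul]
  have h1 : |inner ℝ u (v : E n)| ≤ 1 := by
    have := abs_real_inner_le_norm u (v : E n)
    rwa [hu, norm_SS, mul_one] at this
  have h2 : |max (inner ℝ u (v : E n) - t) 0| ≤ 2 := by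
    rw [abs_of_nonneg (le_max_right _ _)]
    refine max_le ?_ (by norm_num)
    have := abs_le.1 h1
    have := abs_le.1 ht
    linarith
  have h3 := hχ v
  have h4 : 0 ≤ M := (abs_nonneg _).trans h3
  exact mul_le_mul h2 h3 (abs_nonneg _) (by norm_num)

theorem KI_lip {n : ℕ} {t M : ℝ} {χ : SS n → ℝ} (hc : Continuous χ) (hχ : ∀ v, |χ v| ≤ M)
    (u u' : E n) : |KI t χ u - KI t χ u'| ≤ mS n * (M * ‖u - u'‖) := by
  unfold KI
  have hsub : (∫ v : SS n, max (inner ℝ u (v : E n) - t) 0 * χ v ∂(sg n))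
      - ∫ v : SS n, max (inner ℝ u' (v : E n) - t) 0 * χ v ∂(sg n)
      = ∫ v : SS n, (max (inner ℝ u (v : E n) - t) 0 * χ v
        - max (inner ℝ u' (v : E n) - t) 0 * χ v) ∂(sg n) :=
    (integral_sub (integrable_sg ((cont_ker t u).mul hc))
      (integrable_sg ((cont_ker t u').mul hc))).symm
  rw [hsub]
  refine abs_int_le (fun v => ?_)
  have h3 := hχ v
  have h4 : 0 ≤ M := (abs_nonneg _).trans h3
  rw [← sub_mul, abs_mul]
  have h1 : |max (inner ℝ u (v : E n) - t) 0 - max (inner ℝ u' (v : E n) - t) 0| ≤ ‖u - u'‖ := by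
    refine (abs_max_sub_max_le_abs _ _ _).trans ?_
    have h5 : inner ℝ u (v : E n) - t - (inner ℝ u' (v : E n) - t) = inner ℝ (u - u') (v : E n) := by
      rw [inner_sub_left]; ring
    rw [h5]
    have := abs_real_inner_le_norm (u - u') (v : E n)
    rwa [norm_SS, mul_one] at this
  rw [mul_comm M]
  exact mul_le_mul h1 h3 (abs_nonneg _) (norm_nonneg _)

theorem KI_mul {n : ℕ} {t c : ℝ} {χ : SS n → ℝ} (u : E n) :
    KI t (fun v => c * χ v) u = c * KI t χ u := by
  unfold KI
  rw [← integral_const_mul]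
  congr 1
  ext v
  ring

theorem int_ball_inner {n : ℕ} (w : E n) : ∫ x in BB n, inner ℝ w x = (0 : ℝ) := by
  have h : ∫ x in BB n, inner ℝ w x = ∫ x, (BB n).indicator (fun x => inner ℝ w x) x :=
    (integral_indicator measurableSet_closedBall).symm
  have h2 : ∫ x, (BB n).indicator (fun x => (inner ℝ w x : ℝ)) (-x)
      = ∫ x, (BB n).indicator (fun x => inner ℝ w x) x := integral_neg_eq_self _ _
  have h3 : ∀ x : E n, (BB n).indicator (fun x => (inner ℝ w x : ℝ)) (-x)
      = -(BB n).indicator (fun x => (inner ℝ w x : ℝ)) x := by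
    intro x
    by_cases hx : x ∈ BB n
    · have hx' : -x ∈ BB n := by simpa [mem_closedBall] using hx
      rw [indicator_of_mem hx, indicator_of_mem hx', inner_neg_right]
    · have hx' : -x ∉ BB n := by simpa [mem_closedBall] using hx
      rw [indicator_of_notMem hx, indicator_of_notMem hx', neg_zero]
  simp_rw [h3] at h2
  rw [integral_neg] at h2
  rw [h]
  linarith

theorem norm_le_of_inner {n : ℕ} {b : E n} {B : ℝ} (hB : 0 ≤ B)
    (h : ∀ u : E n, ‖u‖ = 1 → inner ℝ b u ≤ B) : ‖b‖ ≤ B := by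
  by_cases hb : b = 0
  · rw [hb, norm_zero]; exact hB
  have hn : 0 < ‖b‖ := norm_pos_iff.2 hb
  have h1 : ‖(‖b‖⁻¹ • b)‖ = 1 := by
    rw [norm_smul, norm_inv, norm_norm, inv_mul_cancel₀ hn.ne']
  have h2 := h _ h1
  rw [real_inner_smul_right, real_inner_self_eq_norm_sq] at h2
  have h3 : ‖b‖⁻¹ * ‖b‖ ^ 2 = ‖b‖ := by field_simp
  rwa [h3] at h2

/-- The analytic core: from the expansions to the hypotheses of `S_limit`. -/
theorem local_of (hHex : S_hexp) (hRad : S_rad) (hRN : S_rad_near) (hSh : S_shell)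
    (hLim : S_limit) (hBal : S_ball_level) : S_local := by
  intro n hn θ0 h0 h1
  have hn1 : 1 ≤ n := by omega
  obtain ⟨t, H, hB⟩ := hBal n hn1 h0 h1
  obtain ⟨η, hη, hL⟩ := hLim hn hB
  obtain ⟨C, hC, hshell⟩ := hSh n hn1
  have hH : 0 < H := hB.2.2.1
  have ht : |t| ≤ 1 := abs_le.2 ⟨hB.1.le, hB.2.1.le⟩
  set S := mS n with hS
  have hS0 : 0 ≤ S := mS_nonneg n
  set η2 : ℝ := min (η * H ^ 2 / 2) (H / 2) with hη2
  have hη2p : 0 < η2 := lt_min (by positivity) (by positivity)
  set η1 : ℝ := min (η * H / 4) (min (η2 / 2) H) with hη1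
  have hη1p : 0 < η1 := lt_min (by positivity) (lt_min (by positivity) hH)
  have hη1a : η1 ≤ η * H / 4 := min_le_left _ _
  have hη1b : η1 ≤ η2 / 2 := (min_le_right _ _).trans (min_le_left _ _)
  have hη1c : η1 ≤ H := (min_le_right _ _).trans (min_le_right _ _)
  have hη2a : η2 ≤ η * H ^ 2 / 2 := min_le_left _ _
  have hη2b : η2 ≤ H / 2 := min_le_right _ _
  obtain ⟨ε1, hε1, hhex⟩ := hHex n hn1 h0 h1 hB hη1p
  set L1 : ℝ := 3 + 6 * S / H with hL1
  have hL1p : 0 < L1 := by positivity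
  set εa : ℝ := η2 / (2 * (6 * H + 4 * S + 1)) with hεa
  have hεap : 0 < εa := by positivity
  set εb : ℝ := (η / (4 * L1)) ^ 2 with hεb
  have hεbp : 0 < εb := by positivity
  set εc : ℝ := η / (8 * C) with hεc
  have hεcp : 0 < εc := by positivity
  refine ⟨min (min ε1 εa) (min (min εb εc) (min (1 / 2) (θ0 / 2))), ?_, ?_⟩
  · exact lt_min (lt_min hε1 hεap) (lt_min (lt_min hεbp hεcp) (lt_min (by norm_num) (by positivity)))
  intro K θ hK hN hnear hθ hsol
  set ε0 := min (min ε1 εa) (min (min εb εc) (min (1 / 2) (θ0 / 2))) with hε0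
  have e1 : ε0 ≤ ε1 := (min_le_left _ _).trans (min_le_left _ _)
  have e2 : ε0 ≤ εa := (min_le_left _ _).trans (min_le_right _ _)
  have e3 : ε0 ≤ εb := (min_le_right _ _).trans ((min_le_left _ _).trans (min_le_left _ _))
  have e4 : ε0 ≤ εc := (min_le_right _ _).trans ((min_le_left _ _).trans (min_le_right _ _))
  have e5 : ε0 ≤ 1 / 2 := (min_le_right _ _).trans ((min_le_right _ _).trans (min_le_left _ _))
  have e6 : ε0 ≤ θ0 / 2 := (min_le_right _ _).trans ((min_le_right _ _).trans (min_le_right _ _))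
  have e0 : 0 ≤ ε0 := by
    rw [hε0]
    exact (lt_min (lt_min hε1 hεap) (lt_min (lt_min hεbp hεcp) (lt_min (by norm_num) (by positivity)))).le
  clear_value ε0
  obtain ⟨hρc, hρ⟩ := hRad hK e0 e5 hnear
  have : CompactSpace (SS n) := isCompact_iff_compactSpace.1 (isCompact_sphere _ _)
  have : Nonempty (SS n) := by
    have : Nontrivial (E n) := by
      have : Nonempty (Fin n) := ⟨⟨0, by omega⟩⟩
      infer_instance
    obtain ⟨x, hx⟩ := exists_norm_eq (E n) (zero_le_one)
    exact ⟨⟨x, by rw [mem_sphere_zero_iff_norm]; exact hx⟩⟩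
  -- the optimal radius
  have hcont : Continuous (fun v : SS n => |rad K v - 1|) := (hρc.sub continuous_const).abs
  obtain ⟨v0, -, hv0⟩ := isCompact_univ.exists_isMaxOn (univ_nonempty (α := SS n)) hcont.continuousOn
  set ε := |rad K v0 - 1| with hε
  have hmax : ∀ v : E n, ‖v‖ = 1 → |rad K v - 1| ≤ ε := by
    intro v hv
    exact hv0 (mem_univ (⟨v, by rw [mem_sphere_zero_iff_norm]; exact hv⟩ : SS n))
  have hεn : 0 ≤ ε := abs_nonneg _
  have hεε0 : ε ≤ ε0 := (hρ v0 (norm_SS v0)).1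
  have hnear' : Near K ε := hRN hK e5 hnear hmax hεn
  rcases hεn.eq_or_lt with hz | hpos
  · rw [← hz] at hnear'
    have h2 := hnear'.1
    have h3 := hnear'.2
    rw [sub_zero] at h2
    rw [add_zero] at h3
    exact Subset.antisymm h3 h2
  exfalso
  clear_value ε
  have hε2 : ε ≤ 1 / 2 := hεε0.trans e5
  -- redo the comparison with the optimal radius
  obtain ⟨-, hρ⟩ := hRad hK hεn hε2 hnear'
  have hvol : 0 < vol K := vol_pos hK
  have hθp : 0 < θ := by
    have := (abs_le.1 hθ).1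
    linarith
  obtain ⟨A, hA, hAu⟩ := hhex K ε θ hK hpos (hεε0.trans e1) (hθ.trans e1) hnear'
  obtain ⟨c, b, hc, hcb⟩ := hsol
  set d := θ * vol K with hd
  have hdp : 0 < d := by positivity
  set D := d * c with hD
  have hDp : 0 < D := by positivity
  set χ : SS n → ℝ := fun v => (rad K v - 1) / ε with hχ
  have hχc : Continuous χ := (hρc.sub continuous_const).div_const _
  have hχ1 : ∀ v, |χ v| ≤ 1 := by
    intro v
    rw [hχ, abs_div, abs_of_pos hpos, div_le_one hpos]
    exact hmax v (norm_SS v)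
  have hKIρ : ∀ u : E n, KI t (fun v : SS n => rad K v - 1) u = ε * KI t χ u := by
    intro u
    rw [← KI_mul]
    congr 1
    ext v
    rw [hχ]
    field_simp
  -- the main relation
  have hrel : ∀ u : E n, ‖u‖ = 1 →
      |D * supp K u + d * inner ℝ b u - A - ε * KI t χ u| ≤ η1 * ε := by
    intro u hu
    obtain ⟨τ, hτ, hτe⟩ := hcb u hu
    have h2 := hAu u τ hu hτ
    rw [hτe, hKIρ u] at h2
    have h3 : D * supp K u + d * inner ℝ b u - A - ε * KI t χ u
        = d * (c * supp K u + inner ℝ b u) - A - ε * KI t χ u := by rw [hD]; ring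
    rw [h3]
    exact h2
  have hKIb : ∀ u : E n, ‖u‖ = 1 → |KI t χ u| ≤ 2 * S := by
    intro u hu
    have := KI_bound ht hχ1 hu
    rw [← hS] at this
    linarith
  -- bounds for `D`
  have hv0n := norm_SS v0
  have hA' := abs_le.1 hA
  have hD1 : D * (1 - ε) ≤ A + (η1 + 2 * S) * ε := by
    have h2 := abs_le.1 (hrel v0 hv0n)
    have h3 := abs_le.1 (hrel (-v0) (by rw [norm_neg]; exact hv0n))
    have h4 := abs_le.1 (hKIb v0 hv0n)
    have h5 := abs_le.1 (hKIb (-v0) (by rw [norm_neg]; exact hv0n))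
    have h6 := (abs_le.1 (hρ v0 hv0n).2.1).1
    have h7 := (abs_le.1 (hρ (-v0) (by rw [norm_neg]; exact hv0n)).2.1).1
    rw [inner_neg_right] at h3
    have h8 : D * (1 - ε) ≤ D * supp K v0 := mul_le_mul_of_nonneg_left (by linarith) hDp.le
    have h9 : D * (1 - ε) ≤ D * supp K (-v0) := mul_le_mul_of_nonneg_left (by linarith) hDp.le
    have h10 : ε * KI t χ v0 ≤ ε * (2 * S) := mul_le_mul_of_nonneg_left h4.2 hpos.le
    have h11 : ε * KI t χ (-v0) ≤ ε * (2 * S) := mul_le_mul_of_nonneg_left h5.2 hpos.le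
    nlinarith [h2.2, h3.2]
  have hD2 : A - (η1 + 2 * S) * ε ≤ D * (1 + ε) := by
    have h2 := abs_le.1 (hrel v0 hv0n)
    have h3 := abs_le.1 (hrel (-v0) (by rw [norm_neg]; exact hv0n))
    have h4 := abs_le.1 (hKIb v0 hv0n)
    have h5 := abs_le.1 (hKIb (-v0) (by rw [norm_neg]; exact hv0n))
    have h6 := (abs_le.1 (hρ v0 hv0n).2.1).2
    have h7 := (abs_le.1 (hρ (-v0) (by rw [norm_neg]; exact hv0n)).2.1).2
    rw [inner_neg_right] at h3
    have h8 : D * supp K v0 ≤ D * (1 + ε) := mul_le_mul_of_nonneg_left (by linarith) hDp.le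
    have h9 : D * supp K (-v0) ≤ D * (1 + ε) := mul_le_mul_of_nonneg_left (by linarith) hDp.le
    have h10 : ε * (-(2 * S)) ≤ ε * KI t χ v0 := mul_le_mul_of_nonneg_left h4.1 hpos.le
    have h11 : ε * (-(2 * S)) ≤ ε * KI t χ (-v0) := mul_le_mul_of_nonneg_left h5.1 hpos.le
    nlinarith [h2.1, h3.1]
  have hDle : D ≤ 5 * H + 2 * S := by
    have h2 : (η1 + 2 * S) * ε ≤ (H + 2 * S) * (1 / 2) :=
      mul_le_mul (by linarith) hε2 hpos.le (by positivity)
    have h3 : D * (1 / 2) ≤ D * (1 - ε) := mul_le_mul_of_nonneg_left (by linarith) hDp.le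
    nlinarith [hA'.2]
  have hDH : |D - H| ≤ η2 := by
    have h2 : ε * (2 * (6 * H + 4 * S + 1)) ≤ η2 := by
      have h3 : ε ≤ η2 / (2 * (6 * H + 4 * S + 1)) := hεε0.trans e2
      rwa [le_div_iff₀ (by positivity)] at h3
    have h4 : D * ε ≤ (5 * H + 2 * S) * ε := mul_le_mul_of_nonneg_right hDle hpos.le
    have h5 : η1 * ε ≤ H * ε := mul_le_mul_of_nonneg_right hη1c hpos.le
    rw [abs_le]
    constructor <;> nlinarith [hA'.1, hA'.2]
  have hDlo : H / 2 ≤ D := by
    have := (abs_le.1 hDH).1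
    linarith
  set α : ℝ := D⁻¹ with hα
  have hαp : 0 < α := inv_pos.2 hDp
  have hαle : α ≤ 2 / H := by
    rw [hα, inv_le_comm₀ hDp (by positivity), inv_div]
    exact hDlo
  have hαH : |α - H⁻¹| ≤ η := by
    have h2 : α - H⁻¹ = (H - D) * (α / H) := by
      rw [hα]; field_simp
    rw [h2, abs_mul, abs_sub_comm, abs_of_pos (by positivity : 0 < α / H)]
    have h3 : α / H ≤ 2 / H ^ 2 := by
      have : 2 / H ^ 2 = (2 / H) / H := by field_simp
      rw [this]
      exact div_le_div_of_nonneg_right hαle hH.le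
    calc |D - H| * (α / H) ≤ (η * H ^ 2 / 2) * (2 / H ^ 2) :=
          mul_le_mul (hDH.trans hη2a) h3 (by positivity) (by positivity)
      _ = η := by field_simp
  set a : ℝ := (A - D) * α / ε with ha
  set b' : E n := (-(d * α / ε)) • b with hb'
  -- the relation for the support function
  have hψ : ∀ u : E n, ‖u‖ = 1 →
      |(supp K u - 1) / ε - (α * KI t χ u + a + inner ℝ b' u)| ≤ η / 2 := by
    intro u hu
    have h2 := hrel u hu
    have h3 : (supp K u - 1) / ε - (α * KI t χ u + a + inner ℝ b' u)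
        = (D * supp K u + d * inner ℝ b u - A - ε * KI t χ u) * (α / ε) := by
      have hDα : D * α = 1 := mul_inv_cancel₀ hDp.ne'
      rw [ha, hb', real_inner_smul_left]
      have h4 : (supp K u - 1) / ε = (D * α) * (supp K u - 1) / ε := by rw [hDα, one_mul]
      rw [h4]
      field_simp
      ring
    rw [h3, abs_mul, abs_of_pos (by positivity : 0 < α / ε)]
    calc |D * supp K u + d * inner ℝ b u - A - ε * KI t χ u| * (α / ε)
        ≤ (η1 * ε) * (α / ε) := mul_le_mul_of_nonneg_right h2 (by positivity)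
      _ = η1 * α := by field_simp
      _ ≤ (η * H / 4) * (2 / H) := mul_le_mul hη1a hαle hαp.le (by positivity)
      _ = η / 2 := by field_simp; ring
  have hη1H : η1 * α ≤ 2 := by
    calc η1 * α ≤ H * (2 / H) := mul_le_mul hη1c hαle hαp.le hH.le
      _ = 2 := by field_simp
  have hψ' : ∀ u : E n, ‖u‖ = 1 →
      |(supp K u - 1) / ε - (α * KI t χ u + a + inner ℝ b' u)| ≤ 2 := by
    intro u hu
    have h2 := hrel u hu
    have h3 : (supp K u - 1) / ε - (α * KI t χ u + a + inner ℝ b' u)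
        = (D * supp K u + d * inner ℝ b u - A - ε * KI t χ u) * (α / ε) := by
      have hDα : D * α = 1 := mul_inv_cancel₀ hDp.ne'
      rw [ha, hb', real_inner_smul_left]
      have h4 : (supp K u - 1) / ε = (D * α) * (supp K u - 1) / ε := by rw [hDα, one_mul]
      rw [h4]
      field_simp
      ring
    rw [h3, abs_mul, abs_of_pos (by positivity : 0 < α / ε)]
    calc |D * supp K u + d * inner ℝ b u - A - ε * KI t χ u| * (α / ε)
        ≤ (η1 * ε) * (α / ε) := mul_le_mul_of_nonneg_right h2 (by positivity)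
      _ = η1 * α := by field_simp
      _ ≤ 2 := hη1H
  have hsuppb : ∀ u : E n, ‖u‖ = 1 → |(supp K u - 1) / ε| ≤ 1 := by
    intro u hu
    rw [abs_div, abs_of_pos hpos, div_le_one hpos]
    exact (hρ u hu).2.1
  have hαS : α * (2 * S) ≤ 4 * S / H := by
    calc α * (2 * S) ≤ (2 / H) * (2 * S) := mul_le_mul_of_nonneg_right hαle (by positivity)
      _ = 4 * S / H := by ring
  have hb'n : ‖b'‖ ≤ 3 + 4 * S / H := by
    refine norm_le_of_inner (by positivity) (fun u hu => ?_)
    have h2 := abs_le.1 (hψ' u hu)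
    have h3 := abs_le.1 (hψ' (-u) (by rw [norm_neg]; exact hu))
    have h4 := abs_le.1 (hsuppb u hu)
    have h5 := abs_le.1 (hsuppb (-u) (by rw [norm_neg]; exact hu))
    have h6 := abs_le.1 (hKIb u hu)
    have h7 := abs_le.1 (hKIb (-u) (by rw [norm_neg]; exact hu))
    rw [inner_neg_right] at h3
    have h8 : α * (-(2 * S)) ≤ α * KI t χ u := mul_le_mul_of_nonneg_left h6.1 hαp.le
    have h9 : α * KI t χ (-u) ≤ α * (2 * S) := mul_le_mul_of_nonneg_left h7.2 hαp.le
    linarith [h2.1, h3.2]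
  have hglip : ∀ u v : E n,
      |(α * KI t χ u + a + inner ℝ b' u) - (α * KI t χ v + a + inner ℝ b' v)| ≤ L1 * ‖u - v‖ := by
    intro u v
    have h2 : (α * KI t χ u + a + inner ℝ b' u) - (α * KI t χ v + a + inner ℝ b' v)
        = α * (KI t χ u - KI t χ v) + inner ℝ b' (u - v) := by
      rw [inner_sub_right]; ring
    rw [h2]
    refine (abs_add_le _ _).trans ?_
    rw [abs_mul, abs_of_pos hαp]
    have h3 := KI_lip (t := t) hχc hχ1 u v
    rw [← hS, one_mul] at h3
    have h4 : |inner ℝ b' (u - v)| ≤ ‖b'‖ * ‖u - v‖ := abs_real_inner_le_norm _ _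
    have h5 : α * |KI t χ u - KI t χ v| ≤ (2 / H) * (S * ‖u - v‖) :=
      mul_le_mul hαle h3 (abs_nonneg _) (by positivity)
    have h6 : ‖b'‖ * ‖u - v‖ ≤ (3 + 4 * S / H) * ‖u - v‖ :=
      mul_le_mul_of_nonneg_right hb'n (norm_nonneg _)
    have h7 : L1 * ‖u - v‖ = (2 / H) * (S * ‖u - v‖) + (3 + 4 * S / H) * ‖u - v‖ := by
      rw [hL1]; ring
    linarith
  refine hL χ α a b' hχc hχ1 ?_ hαH ?_ ?_ ?_
  · refine ⟨v0, ?_⟩
    rw [hχ, abs_div, abs_of_pos hpos]
    rw [← hε]
    exact div_self hpos.ne'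
  · intro v
    have hv := norm_SS v
    obtain ⟨-, -, h2, u, hu, huv, hsu⟩ := hρ v hv
    have h3 := abs_le.1 (hψ v hv)
    have h4 := abs_le.1 (hψ u hu)
    have h5 : χ v ≤ (supp K v - 1) / ε := by
      rw [hχ]
      exact div_le_div_of_nonneg_right (by linarith) hpos.le
    have h6 : (supp K u - 1) / ε ≤ χ v := by
      rw [hχ]
      exact div_le_div_of_nonneg_right (by linarith) hpos.le
    have h7 : L1 * ‖u - v‖ ≤ η / 2 := by
      have h8 : ‖u - (v : E n)‖ ^ 2 ≤ (η / (2 * L1)) ^ 2 := by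
        refine huv.trans ?_
        have h9 : ε ≤ (η / (4 * L1)) ^ 2 := hεε0.trans e3
        have h10 : (η / (2 * L1)) ^ 2 = 4 * (η / (4 * L1)) ^ 2 := by
          field_simp; ring
        rw [h10]
        linarith
      have h11 : ‖u - (v : E n)‖ ≤ η / (2 * L1) := by
        exact le_of_sq_le_sq h8 (by positivity)
      calc L1 * ‖u - (v : E n)‖ ≤ L1 * (η / (2 * L1)) := mul_le_mul_of_nonneg_left h11 hL1p.le
        _ = η / 2 := by field_simp
    have h8 := abs_le.1 (hglip u v)
    have h9 : χ v - α * KI t χ v - a - inner ℝ b' (v : E n)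
        = χ v - (α * KI t χ v + a + inner ℝ b' (v : E n)) := by ring
    rw [h9, abs_le]
    constructor
    · linarith [h4.1, h8.1, h8.2, h6]
    · linarith [h3.2, h5]
  · intro w hw
    have h2 := hshell hK hεn hε2 hnear' (fun x => inner ℝ w x) 1 2 zero_le_one
      (fun x _ y _ => by
        rw [← inner_sub_right, one_mul]
        have := abs_real_inner_le_norm w (x - y)
        rwa [hw, one_mul] at this)
      (fun x hx => by
        have := abs_real_inner_le_norm w x
        rw [hw, one_mul] at this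
        exact this.trans (by simpa using hx))
    rw [hN.cent w, int_ball_inner w] at h2
    have h3 : ∫ v : SS n, inner ℝ w (v : E n) * (rad K v - 1) ∂(sg n)
        = ε * ∫ v : SS n, χ v * inner ℝ w (v : E n) ∂(sg n) := by
      rw [← integral_const_mul]
      congr 1
      ext v
      rw [hχ]
      field_simp
    rw [h3] at h2
    have h4 : |ε * ∫ v : SS n, χ v * inner ℝ w (v : E n) ∂(sg n)| ≤ C * (1 + 2) * ε ^ 2 := by
      rw [← abs_neg]
      convert h2 using 2
      ring
    rw [abs_mul, abs_of_pos hpos] at h4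
    have h5 : |∫ v : SS n, χ v * inner ℝ w (v : E n) ∂(sg n)| ≤ C * 3 * ε := by
      refine le_of_mul_le_mul_left (h4.trans (le_of_eq ?_)) hpos
      ring
    have h6 : ε * (8 * C) ≤ η := by
      have h7 : ε ≤ η / (8 * C) := hεε0.trans e4
      rwa [le_div_iff₀ (by positivity)] at h7
    nlinarith
  · intro w hw
    have h2 := hshell hK hεn hε2 hnear' (fun x => (inner ℝ w x) ^ 2) 4 4 (by norm_num)
      (fun x hx y hy => by
        have h3 : (inner ℝ w x) ^ 2 - (inner ℝ w y) ^ 2
            = (inner ℝ w x + inner ℝ w y) * inner ℝ w (x - y) := by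
          rw [inner_sub_right]; ring
        rw [h3, abs_mul]
        have h4 := abs_real_inner_le_norm w (x - y)
        have h5 := abs_real_inner_le_norm w x
        have h6 := abs_real_inner_le_norm w y
        rw [hw, one_mul] at h4 h5 h6
        have h7 : ‖x‖ ≤ 2 := by simpa using hx
        have h8 : ‖y‖ ≤ 2 := by simpa using hy
        have h9 : |inner ℝ w x + inner ℝ w y| ≤ 4 := (abs_add_le _ _).trans (by linarith)
        exact mul_le_mul h9 h4 (abs_nonneg _) (by norm_num))
      (fun x hx => by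
        have h5 := abs_real_inner_le_norm w x
        rw [hw, one_mul] at h5
        have h7 : ‖x‖ ≤ 2 := by simpa using hx
        rw [abs_pow]
        nlinarith [abs_nonneg (inner ℝ w x)])
    rw [hN.iner w, sub_self, zero_sub, abs_neg] at h2
    have h3 : ∫ v : SS n, (inner ℝ w (v : E n)) ^ 2 * (rad K v - 1) ∂(sg n)
        = ε * ∫ v : SS n, χ v * (inner ℝ w (v : E n)) ^ 2 ∂(sg n) := by
      rw [← integral_const_mul]
      congr 1
      ext v
      rw [hχ]
      field_simp
    rw [h3, abs_mul, abs_of_pos hpos] at h2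
    have h5 : |∫ v : SS n, χ v * (inner ℝ w (v : E n)) ^ 2 ∂(sg n)| ≤ C * 8 * ε := by
      refine le_of_mul_le_mul_left (h2.trans (le_of_eq ?_)) hpos
      ring
    have h6 : ε * (8 * C) ≤ η := by
      have h7 : ε ≤ η / (8 * C) := hεε0.trans e4
      rwa [le_div_iff₀ (by positivity)] at h7
    linarith

end Pool.Agent.Helper73.LR
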