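import Pool.Agent.Helper73.LR.Defs

/-!
# Statements of the modules (project MP_a2630c_LR)
-/

open MeasureTheory Set Metric Real
open scoped RealInnerProductSpace ENNReal
open Pool.Agent.Helper16.Buoy (E cap IsEllipsoid Homothetic buoyancyBody)
open Pool.Agent.Helper73.HV (supp SBody)

namespace Pool.Agent.Helper73.LR

/-! ## General convex bodies -/

/-- (SH) Homothety to the body of buoyancy gives the equation for support functions. -/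
def S_sol_of_hom : Prop := ∀ {n : ℕ} {K : Set (E n)}, 1 ≤ n → CB K → ∀ {d : ℝ}, 0 < d →
    ENNReal.ofReal d < volume K → Homothetic K (buoyancyBody K d) → Sol K d

/-- (LEV) Caps of a given volume minimise `GG K u τ + d τ`, and exist. -/
def S_level : Prop := ∀ {n : ℕ} {K : Set (E n)}, CB K → ∀ {d : ℝ}, 0 < d →
    ENNReal.ofReal d < volume K → ∀ {u : E n}, u ≠ 0 →
    (∃ τ, volume (cap K u τ) = ENNReal.ofReal d) ∧
      ∀ τ τ' : ℝ, volume (cap K u τ) = ENNReal.ofReal d → GG K u τ + d * τ ≤ GG K u τ' + d * τ'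

/-- (AFF) The equation is affinely invariant. -/
def S_sol_aff : Prop := ∀ {n : ℕ} {K : Set (E n)}, CB K → ∀ {θ : ℝ}, Sol K (θ * vol K) →
    ∀ (T : E n ≃L[ℝ] E n) (p : E n), CB (aff T p '' K) ∧
      Sol (aff T p '' K) (θ * vol (aff T p '' K))

/-- (NRM) Every convex body has a normalised affine image. -/
def S_normalize : Prop := ∀ {n : ℕ} {K : Set (E n)}, CB K →
    ∃ (T : E n ≃L[ℝ] E n) (p : E n), Nrm (aff T p '' K)

/-- (NNR) Bodies close to the ball stay close to the ball after normalisation. -/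
def S_near_nrm : Prop := ∀ (n : ℕ) {ε : ℝ}, 0 < ε → ∃ ε' : ℝ, 0 < ε' ∧
    ∀ (K : Set (E n)) (T : E n ≃L[ℝ] E n) (p : E n), CB K → BB n ⊆ K →
      K ⊆ closedBall 0 (1 + ε') → Nrm (aff T p '' K) → Near (aff T p '' K) ε

/-- (ELL) A normalised ellipsoid is the unit ball; affine images of ellipsoids are ellipsoids. -/
def S_ell_nrm : Prop := ∀ {n : ℕ} {K : Set (E n)}, IsEllipsoid K → Nrm K → K = BB n

def S_ell_aff : Prop := ∀ {n : ℕ} {K : Set (E n)} (T : E n ≃L[ℝ] E n) (p : E n),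
    IsEllipsoid (aff T p '' K) → IsEllipsoid K

/-! ## Near the ball -/

/-- (SHL) First order expansion of integrals over a body near the ball. -/
def S_shell : Prop := ∀ (n : ℕ), 1 ≤ n → ∃ C : ℝ, 0 < C ∧ ∀ {K : Set (E n)} {ε : ℝ}, CB K →
    0 ≤ ε → ε ≤ 1 / 2 → Near K ε → ∀ (F : E n → ℝ) (L M : ℝ), 0 ≤ L →
    (∀ x ∈ closedBall (0 : E n) 2, ∀ y ∈ closedBall (0 : E n) 2, |F x - F y| ≤ L * ‖x - y‖) →
    (∀ x ∈ closedBall (0 : E n) 2, |F x| ≤ M) →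
    |(∫ x in K, F x) - (∫ x in BB n, F x) - ∫ v : SS n, F v * (rad K v - 1) ∂(sg n)|
      ≤ C * (L + M) * ε ^ 2

/-- (RAD) Radial function and support function near the ball. -/
def S_rad : Prop := ∀ {n : ℕ} {K : Set (E n)} {ε : ℝ}, CB K → 0 ≤ ε → ε ≤ 1 / 2 → Near K ε →
    Continuous (fun v : SS n => rad K v) ∧
    ∀ v : E n, ‖v‖ = 1 → |rad K v - 1| ≤ ε ∧ |supp K v - 1| ≤ ε ∧ rad K v ≤ supp K v ∧
      ∃ u : E n, ‖u‖ = 1 ∧ ‖u - v‖ ^ 2 ≤ 4 * ε ∧ supp K u ≤ rad K v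

/-- (RNR) The optimal `ε`. -/
def S_rad_near : Prop := ∀ {n : ℕ} {K : Set (E n)} {ε0 ε : ℝ}, CB K → ε0 ≤ 1 / 2 → Near K ε0 →
    (∀ v : E n, ‖v‖ = 1 → |rad K v - 1| ≤ ε) → 0 ≤ ε → Near K ε

/-- (BAL) Caps of the ball. -/
def S_ball_level : Prop := ∀ (n : ℕ), 1 ≤ n → ∀ {θ : ℝ}, 0 < θ → θ < 1 → ∃ t H, BLev n θ t H

/-- (BAC) Continuity of the level of the caps of the ball, uniformly in the direction. -/
def S_ball_cont : Prop := ∀ (n : ℕ), 1 ≤ n → ∀ {θ t H : ℝ}, BLev n θ t H → ∀ {η : ℝ}, 0 < η →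
    ∃ ζ : ℝ, 0 < ζ ∧ ∀ (u : E n) (τ : ℝ), ‖u‖ = 1 →
      |vol (cap (BB n) u τ) - θ * vol (BB n)| < ζ → |τ - t| < η

/-- (HEX) First order expansion of the cap moments near the ball. -/
def S_hexp : Prop := ∀ (n : ℕ), 1 ≤ n → ∀ {θ0 t0 H0 : ℝ}, 0 < θ0 → θ0 < 1 → BLev n θ0 t0 H0 →
    ∀ {η : ℝ}, 0 < η → ∃ ε0 : ℝ, 0 < ε0 ∧ ∀ (K : Set (E n)) (ε θ : ℝ), CB K → 0 < ε → ε ≤ ε0 →
      |θ - θ0| ≤ ε0 → Near K ε → ∃ A : ℝ, |A - H0| ≤ η ∧ ∀ (u : E n) (τ : ℝ), ‖u‖ = 1 →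
        volume (cap K u τ) = ENNReal.ofReal (θ * vol K) →
        |GG K u τ + θ * vol K * τ - A - KI t0 (fun v : SS n => rad K v - 1) u| ≤ η * ε

/-! ## The linear problem on the sphere (`n ≥ 3`) -/

/-- (ROT) Rotation invariance of the surface measure. -/
def S_rot : Prop := ∀ {n : ℕ} (R : E n ≃ₗᵢ[ℝ] E n) (g : E n → ℝ),
    ∫ v : SS n, g (R v) ∂(sg n) = ∫ v : SS n, g v ∂(sg n)

/-- (GEN) The two integration by parts identities. `z = <v,x> + i <w,x>`, `P = 1 - |z|²`. -/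
def S_gen : Prop := ∀ {n : ℕ}, 3 ≤ n → ∀ {v w : E n}, ‖v‖ = 1 → ‖w‖ = 1 → inner ℝ v w = 0 →
    ∀ {Q Q' : ℝ → ℝ}, (∀ s, HasDerivAt Q (Q' s) s) → Continuous Q' → ∀ (m j : ℕ),
    ((n : ℂ) - 2 + 2 * j) * ∫ x : SS n, ((Q (inner ℝ v (x : E n)) : ℝ) : ℂ) *
        (((1 - (inner ℝ v (x : E n)) ^ 2 - (inner ℝ w (x : E n)) ^ 2) ^ j : ℝ) : ℂ) *
        ((inner ℝ v (x : E n) : ℝ) + (inner ℝ w (x : E n) : ℝ) * Complex.I) ^ (m + 1) ∂(sg n)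
      = ∫ x : SS n, ((Q' (inner ℝ v (x : E n)) : ℝ) : ℂ) *
        (((1 - (inner ℝ v (x : E n)) ^ 2 - (inner ℝ w (x : E n)) ^ 2) ^ (j + 1) : ℝ) : ℂ) *
        ((inner ℝ v (x : E n) : ℝ) + (inner ℝ w (x : E n) : ℝ) * Complex.I) ^ m ∂(sg n)

/-- The multiplier of degree `d`. -/
noncomputable def mult {n : ℕ} (t : ℝ) (v w : E n) (d : ℕ) : ℝ :=
  ∫ x : SS n, max (inner ℝ v (x : E n) - t) 0 *
    (((inner ℝ v (x : E n) : ℝ) + (inner ℝ w (x : E n) : ℝ) * Complex.I) ^ d).re ∂(sg n)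

/-- (MUL) The multipliers of degree `d ≥ 3` are smaller than the one of degree two. -/
def S_mult_lt : Prop := ∀ {n : ℕ}, 3 ≤ n → ∀ {v w : E n}, ‖v‖ = 1 → ‖w‖ = 1 → inner ℝ v w = 0 →
    ∀ {t : ℝ}, -1 < t → t < 1 → ∀ {d : ℕ}, 3 ≤ d → mult t v w d < mult t v w 2

/-- (MU2) The multiplier of degree two is the cap moment of the ball. -/
def S_mult_two : Prop := ∀ {n : ℕ}, 3 ≤ n → ∀ {v w : E n}, ‖v‖ = 1 → ‖w‖ = 1 → inner ℝ v w = 0 →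
    ∀ {θ t H : ℝ}, BLev n θ t H → mult t v w 2 = H

/-- (POL) The operator maps `<e,x>^d` to a polynomial in `<e,x>` with leading coefficient `mult`. -/
def S_poly : Prop := ∀ {n : ℕ}, 3 ≤ n → ∀ {v w : E n}, ‖v‖ = 1 → ‖w‖ = 1 → inner ℝ v w = 0 →
    ∀ {t : ℝ}, ∀ (d : ℕ), ∃ a : ℕ → ℝ, ∀ e u : E n, ‖e‖ = 1 → ‖u‖ = 1 →
      KI t (fun x : SS n => (inner ℝ e (x : E n)) ^ d) u
        = mult t v w d * (inner ℝ e u) ^ d + ∑ j ∈ Finset.range d, a j * (inner ℝ e u) ^ j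

/-- (DEN) A continuous function on the sphere all of whose moments vanish is zero. -/
def S_dense : Prop := ∀ {n : ℕ} {ψ : SS n → ℝ}, Continuous ψ →
    (∀ (d : ℕ) (e : E n), ‖e‖ = 1 → ∫ x : SS n, ψ x * (inner ℝ e (x : E n)) ^ d ∂(sg n) = 0) →
    ∀ x, ψ x = 0

/-- (INJ) Injectivity of the linearised equation. -/
def S_inj : Prop := ∀ {n : ℕ}, 3 ≤ n → ∀ {θ t H : ℝ}, BLev n θ t H → ∀ {ψ : SS n → ℝ},
    Continuous ψ → ∀ {a : ℝ} {b : E n},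
    (∀ u : SS n, ψ u = H⁻¹ * KI t ψ u + a + inner ℝ b (u : E n)) →
    (∀ w : E n, ∫ x : SS n, ψ x * inner ℝ w (x : E n) ∂(sg n) = 0) →
    (∀ w : E n, ∫ x : SS n, ψ x * (inner ℝ w (x : E n)) ^ 2 ∂(sg n) = 0) → ∀ x, ψ x = 0

/-- (LIM) Quantitative form by compactness. -/
def S_limit : Prop := ∀ {n : ℕ}, 3 ≤ n → ∀ {θ t H : ℝ}, BLev n θ t H → ∃ η : ℝ, 0 < η ∧
    ∀ (χ : SS n → ℝ) (α a : ℝ) (b : E n), Continuous χ → (∀ v, |χ v| ≤ 1) → (∃ v, |χ v| = 1) →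
      |α - H⁻¹| ≤ η → (∀ u : SS n, |χ u - α * KI t χ u - a - inner ℝ b (u : E n)| ≤ η) →
      (∀ w : E n, ‖w‖ = 1 → |∫ x : SS n, χ x * inner ℝ w (x : E n) ∂(sg n)| ≤ η) →
      (∀ w : E n, ‖w‖ = 1 → |∫ x : SS n, χ x * (inner ℝ w (x : E n)) ^ 2 ∂(sg n)| ≤ η) → False

/-! ## Local theorem -/

/-- (LOC) Local rigidity in normalised position. -/
def S_local : Prop := ∀ {n : ℕ}, 3 ≤ n → ∀ {θ0 : ℝ}, 0 < θ0 → θ0 < 1 → ∃ ε0 : ℝ, 0 < ε0 ∧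
    ∀ (K : Set (E n)) (θ : ℝ), CB K → Nrm K → Near K ε0 → |θ - θ0| ≤ ε0 →
      Sol K (θ * vol K) → K = BB n

/-! ## Compactness -/

/-- (BDS) Normalised convex bodies lie between two fixed balls. -/
def S_nrm_bounds : Prop := ∀ (n : ℕ), 1 ≤ n → ∃ r R : ℝ, 0 < r ∧ 0 < R ∧ ∀ (K : Set (E n)),
    CB K → Nrm K → closedBall 0 r ⊆ K ∧ K ⊆ closedBall 0 R

/-- (BLA) Blaschke selection, in a form adapted to bodies containing a fixed ball. -/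
def S_blaschke : Prop := ∀ (n : ℕ) {r R : ℝ}, 1 ≤ n → 0 < r → 0 < R → ∀ (K : ℕ → Set (E n)),
    (∀ k, CB (K k) ∧ closedBall 0 r ⊆ K k ∧ K k ⊆ closedBall 0 R) →
    ∃ (L : Set (E n)) (φ : ℕ → ℕ), CB L ∧ closedBall 0 r ⊆ L ∧ L ⊆ closedBall 0 R ∧
      StrictMono φ ∧ ∀ ε : ℝ, 0 < ε → ε < 1 → ∃ k0 : ℕ, ∀ k, k0 ≤ k →
        (fun x => (1 - ε) • x) '' L ⊆ K (φ k) ∧ K (φ k) ⊆ (fun x => (1 + ε) • x) '' L

/-- (CPT) If the equation has only ellipsoidal solutions at density `θ0`, then normalised solutions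
at nearby densities are close to the unit ball. -/
def S_compact : Prop := ∀ {n : ℕ}, 1 ≤ n → ∀ {θ0 : ℝ}, 0 < θ0 → θ0 < 1 →
    (∀ K : Set (E n), CB K → Sol K (θ0 * vol K) → IsEllipsoid K) → ∀ {ε : ℝ}, 0 < ε →
    ∃ η : ℝ, 0 < η ∧ ∀ (K : Set (E n)) (θ : ℝ), CB K → Nrm K → |θ - θ0| < η →
      Sol K (θ * vol K) → Near K ε

/-- (RH) At density one half the equation has only ellipsoidal solutions. -/
def S_red_half : Prop := ∀ {n : ℕ} {K : Set (E n)}, 1 ≤ n → CB K → Sol K (1 / 2 * vol K) →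
    ∃ (p : E n) (c : ℝ), 0 < c ∧ SBody ((fun x => x - p) '' K) ∧
      ∀ u, supp ((fun x => x - p) '' K) u = c * ∫ x in (fun x => x - p) '' K, |inner ℝ u x|

end Pool.Agent.Helper73.LR
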